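import Mathlib
import Pool.Agent.Y690.PP.Stm

/-!
# Project PP: elementary facts
-/

set_option autoImplicit false

open Finset

namespace Pool.Agent.Y606.PP

open Pool.Agent.Y690.PP

variable {P : Type} {N : P → ℕ} {s : P → P → ℝ} {t : P → ℝ}

theorem one_le_NN (h : ∀ p, 2 ≤ N p) (A : Finset P) : 1 ≤ NN N A :=
  Finset.one_le_prod' fun p _ => le_trans one_le_two (h p)

theorem NN_empty : NN N ∅ = 1 := Finset.prod_empty

theorem one_le_NN' (h : ∀ p, 2 ≤ N p) (A : Finset P) : (1 : ℝ) ≤ NN N A := by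
  exact_mod_cast one_le_NN h A

theorem le_NN (h : ∀ p, 2 ≤ N p) {p : P} {A : Finset P} (hp : p ∈ A) : N p ≤ NN N A :=
  Finset.single_le_prod' (fun q _ => le_trans one_le_two (h q)) hp

theorem finite_PB (h : Basic N s t) (x : ℝ) : {p : P | (N p : ℝ) ≤ x}.Finite := h.fin x

theorem mem_PB (h : Basic N s t) {x : ℝ} {p : P} : p ∈ PB N x ↔ (N p : ℝ) ≤ x := by
  unfold PB
  rw [dif_pos (h.fin x), Set.Finite.mem_toFinset, Set.mem_setOf_eq]

theorem subset_PB (h : Basic N s t) {x : ℝ} {A : Finset P} (hA : (NN N A : ℝ) ≤ x) :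
    A ⊆ PB N x := by
  intro p hp
  rw [mem_PB h]
  refine le_trans ?_ hA
  exact_mod_cast le_NN h.two_le hp

theorem finite_FF (h : Basic N s t) (x : ℝ) : {A : Finset P | (NN N A : ℝ) ≤ x}.Finite := by
  classical
  refine Set.Finite.subset (Finset.finite_toSet (PB N x).powerset) fun A hA => ?_
  rw [Finset.mem_coe, Finset.mem_powerset]
  exact subset_PB h hA

theorem mem_FF (h : Basic N s t) {x : ℝ} {A : Finset P} : A ∈ FF N x ↔ (NN N A : ℝ) ≤ x := by
  unfold FF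
  rw [dif_pos (finite_FF h x), Set.Finite.mem_toFinset, Set.mem_setOf_eq]

theorem abs_s_le (h : Basic N s t) (p q : P) : |s p q| ≤ 1 := by
  by_cases hpq : p = q
  · rw [hpq, h.s_self, abs_zero]
    exact zero_le_one
  · rcases h.s_val p q hpq with h1 | h1 <;> rw [h1] <;> simp

theorem abs_sy_le (h : Basic N s t) (A B : Finset P) : |sy s A B| ≤ 1 := by
  unfold sy
  rw [Finset.abs_prod]
  refine Finset.prod_le_one (fun _ _ => abs_nonneg _) fun p _ => ?_
  rw [Finset.abs_prod]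
  exact Finset.prod_le_one (fun _ _ => abs_nonneg _) fun q _ => abs_s_le h p q

theorem sy_symm (h : Basic N s t) (A B : Finset P) : sy s A B = sy s B A := by
  unfold sy
  rw [Finset.prod_comm]
  exact Finset.prod_congr rfl fun p _ => Finset.prod_congr rfl fun q _ => h.s_symm _ _

theorem sy_zero (h : Basic N s t) {A B : Finset P} (hd : ¬Disjoint A B) : sy s A B = 0 := by
  rw [Finset.not_disjoint_iff] at hd
  obtain ⟨p, h1, h2⟩ := hd
  exact Finset.prod_eq_zero h1 (Finset.prod_eq_zero h2 (h.s_self p))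

theorem prod_pm {ι : Type} (A : Finset ι) (f : ι → ℝ) (hf : ∀ i ∈ A, f i = 1 ∨ f i = -1) :
    ∏ i ∈ A, f i = 1 ∨ ∏ i ∈ A, f i = -1 := by
  classical
  induction A using Finset.induction_on with
  | empty => left; exact Finset.prod_empty
  | insert a A ha ih =>
    rw [Finset.prod_insert ha]
    rcases hf a (Finset.mem_insert_self _ _) with h1 | h1 <;>
      rcases ih (fun i hi => hf i (Finset.mem_insert_of_mem hi)) with h2 | h2 <;>
      rw [h1, h2] <;> norm_num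

theorem sy_val (h : Basic N s t) {A B : Finset P} (hd : Disjoint A B) :
    sy s A B = 1 ∨ sy s A B = -1 := by
  refine prod_pm _ _ fun p hp => prod_pm _ _ fun q hq => h.s_val p q ?_
  rintro rfl
  exact (Finset.disjoint_left.1 hd) hp hq

theorem sy_empty_left (B : Finset P) : sy s ∅ B = 1 := Finset.prod_empty

theorem sy_empty_right (A : Finset P) : sy s A ∅ = 1 :=
  Finset.prod_eq_one fun _ _ => Finset.prod_empty

theorem abs_t_le (h : Basic N s t) (A : Finset P) : |∏ p ∈ A, t p| ≤ 1 := by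
  rcases prod_pm A t (fun p _ => h.t_val p) with h1 | h1 <;> rw [h1] <;> simp

theorem abs_pow_le {a : ℝ} (h : |a| ≤ 1) (n : ℕ) : |a ^ n| ≤ 1 := by
  rw [abs_pow]
  exact pow_le_one₀ (abs_nonneg _) h

theorem pow_odd_pm {a : ℝ} (h : a = 1 ∨ a = -1) {n : ℕ} (hn : Odd n) : a ^ n = a := by
  rcases h with h | h
  · rw [h, one_pow]
  · rw [h, hn.neg_one_pow]

/-- The sum of `1 / N p` over the primes up to `x`. -/
theorem sum_inv_PB (h : Basic N s t) (h2 : A2 N) : ∃ C : ℝ, ∀ x : ℝ, 1 ≤ x →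
    ∑ p ∈ PB N x, (N p : ℝ)⁻¹ ≤ Real.exp 1 * (Real.log (1 + Real.log x) + C) := by
  obtain ⟨C, hC⟩ := h2
  refine ⟨C, fun x hx => ?_⟩
  set L : ℝ := 1 + Real.log x with hL
  have hlog : 0 ≤ Real.log x := Real.log_nonneg hx
  have hL1 : 1 ≤ L := by linarith
  have hL0 : 0 < L := by linarith
  have e1 := hC (PB N x) (1 + 1 / L) (by
    have : 0 < 1 / L := by positivity
    linarith) (by
    have : 1 / L ≤ 1 := (div_le_one hL0).2 hL1
    linarith)
  have e2 : (1 : ℝ) / (1 + 1 / L - 1) = L := by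
    rw [add_sub_cancel_left, one_div_one_div]
  rw [e2] at e1
  refine le_trans ?_ (mul_le_mul_of_nonneg_left e1 (Real.exp_pos 1).le)
  rw [Finset.mul_sum]
  refine Finset.sum_le_sum fun p hp => ?_
  rw [mem_PB h] at hp
  have hN : (2 : ℝ) ≤ N p := by exact_mod_cast h.two_le p
  have hN0 : (0 : ℝ) < N p := by linarith
  rw [neg_add, Real.rpow_add hN0, Real.rpow_neg_one]
  have e3 : (1 : ℝ) ≤ Real.exp 1 * (N p : ℝ) ^ (-(1 / L)) := by
    rw [Real.rpow_def_of_pos hN0, ← Real.exp_add]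
    apply Real.one_le_exp
    have e4 : Real.log (N p) ≤ Real.log x := Real.log_le_log hN0 hp
    have e5 : Real.log (N p) * (1 / L) ≤ 1 := by
      rw [mul_one_div, div_le_one hL0]
      linarith
    linarith
  have e6 : 0 ≤ (N p : ℝ)⁻¹ := by positivity
  calc (N p : ℝ)⁻¹ = (N p : ℝ)⁻¹ * 1 := (mul_one _).symm
    _ ≤ (N p : ℝ)⁻¹ * (Real.exp 1 * (N p : ℝ) ^ (-(1 / L))) := mul_le_mul_of_nonneg_left e3 e6
    _ = Real.exp 1 * ((N p : ℝ)⁻¹ * (N p : ℝ) ^ (-(1 / L))) := by ring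

/-- A sum over finite sets of primes is at most an Euler product. -/
theorem sum_FF_le (h : Basic N s t) (g : P → ℝ) (hg : ∀ p, 0 ≤ g p) (x : ℝ) :
    ∑ A ∈ FF N x, ∏ p ∈ A, g p ≤ Real.exp (∑ p ∈ PB N x, g p) := by
  classical
  have e1 : FF N x ⊆ (PB N x).powerset := fun A hA => by
    rw [Finset.mem_powerset]
    exact subset_PB h ((mem_FF h).1 hA)
  calc ∑ A ∈ FF N x, ∏ p ∈ A, g p
      ≤ ∑ A ∈ (PB N x).powerset, ∏ p ∈ A, g p :=
        Finset.sum_le_sum_of_subset_of_nonneg e1 fun A _ _ => Finset.prod_nonneg fun p _ => hg p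
    _ = ∏ p ∈ PB N x, (1 + g p) := by
        rw [Finset.prod_one_add]
    _ ≤ ∏ p ∈ PB N x, Real.exp (g p) := by
        refine Finset.prod_le_prod (fun p _ => by linarith [hg p]) fun p _ => ?_
        linarith [Real.add_one_le_exp (g p)]
    _ = Real.exp (∑ p ∈ PB N x, g p) := (Real.exp_sum _ _).symm

theorem inv_NN (A : Finset P) : ((NN N A : ℕ) : ℝ)⁻¹ = ∏ p ∈ A, (N p : ℝ)⁻¹ := by
  unfold NN
  rw [Nat.cast_prod, Finset.prod_inv_distrib]

/-- The sum of `K ^ #A / NN A`. -/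
theorem sum_inv_FF (h : Basic N s t) (h2 : A2 N) (K : ℕ) : ∃ (C : ℝ) (D : ℕ), 0 < C ∧
    ∀ x : ℝ, 1 ≤ x → ∑ A ∈ FF N x, (K : ℝ) ^ #A * (NN N A : ℝ)⁻¹ ≤
      C * (1 + Real.log x) ^ D := by
  obtain ⟨C, hC⟩ := sum_inv_PB h h2
  refine ⟨Real.exp (K * (Real.exp 1 * C)), K * 3, Real.exp_pos _, fun x hx => ?_⟩
  have hlog : 0 ≤ Real.log x := Real.log_nonneg hx
  have hL : 1 ≤ 1 + Real.log x := by linarith
  have hL0 : 0 < 1 + Real.log x := by linarith
  have e1 : ∑ A ∈ FF N x, (K : ℝ) ^ #A * (NN N A : ℝ)⁻¹ =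
      ∑ A ∈ FF N x, ∏ p ∈ A, ((K : ℝ) * (N p : ℝ)⁻¹) := by
    refine Finset.sum_congr rfl fun A _ => ?_
    rw [Finset.prod_mul_distrib, Finset.prod_const, inv_NN]
  rw [e1]
  refine (sum_FF_le h _ (fun p => by positivity) x).trans ?_
  rw [← Finset.mul_sum]
  have e2 : (K : ℝ) * ∑ p ∈ PB N x, (N p : ℝ)⁻¹ ≤
      K * (Real.exp 1 * C) + Real.log (1 + Real.log x) * ((K * 3 : ℕ) : ℝ) := by
    have e3 := mul_le_mul_of_nonneg_left (hC x hx) (Nat.cast_nonneg (α := ℝ) K)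
    refine e3.trans ?_
    have e4 : 0 ≤ Real.log (1 + Real.log x) := Real.log_nonneg hL
    have e5 : Real.exp 1 ≤ 3 := by linarith [Real.exp_one_lt_d9]
    have e6 : (0 : ℝ) ≤ K := Nat.cast_nonneg K
    push_cast
    nlinarith [mul_nonneg e6 e4, mul_le_mul_of_nonneg_right e5 (mul_nonneg e6 e4)]
  refine (Real.exp_le_exp.2 e2).trans ?_
  rw [Real.exp_add, ← Real.rpow_def_of_pos hL0, Real.rpow_natCast]

end Pool.Agent.Y606.PP
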